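import Pool.Agent.H.MP_ab86ea_al.C

set_option autoImplicit false
set_option linter.unusedSectionVars false

namespace Pool.Agent.H.MP_ab86ea_al

open scoped commutatorElement
open Pool.Agent.H.MP_23b8d1_al

theorem base {Γ : Type} [Group Γ] {B P : Set Γ} (hP : NS B P) {f h a0 b0 : Γ} (hf : f ∈ P)
    (hh : h ∈ P) (ha0 : a0 ∈ B) (ha0' : a0⁻¹ ∈ B) (hb0 : b0 ∈ B)
    (w1 : Commute (f * a0⁻¹ * f⁻¹) b0) (m1 : Commute a0 (f * h)) (m2 : Commute b0 (f * h))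
    (m3 : Commute (f * a0⁻¹ * f⁻¹) (f * h)) : ⁅a0, b0⁆ * (f * h) ^ 2 ∈ P := by
  have p1 : a0 * (f * a0⁻¹ * f⁻¹) * (f * h) ∈ P := by
    convert hP.mul _ (hP.cj a0 ha0 f hf) _ hh using 1; group
  have p2 : (a0 * (f * a0⁻¹ * f⁻¹))⁻¹ * (f * h) ∈ P := by
    have := hP.cj a0 ha0 _ (hP.mul _ (hP.cj a0⁻¹ ha0' f hf) _ hh)
    convert this using 1
    calc (a0 * (f * a0⁻¹ * f⁻¹))⁻¹ * (f * h) = f * a0 * f⁻¹ * (a0⁻¹ * (f * h)) := by group
      _ = _ := by rw [m1.inv_left.eq]; group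
  have := hP.mul _ p1 _ (hP.cj b0 hb0 _ p2)
  convert this using 1
  generalize f * h = m at *
  generalize f * a0⁻¹ * f⁻¹ = w at *
  have m4 : Commute (b0 * (a0 * w)⁻¹) m := m2.mul_left (m1.mul_left m3).inv_left
  calc ⁅a0, b0⁆ * m ^ 2 = a0 * (b0 * w) * w⁻¹ * a0⁻¹ * (b0⁻¹ * m ^ 2) := by
        rw [commutatorElement_def]; group
    _ = a0 * w * (b0 * (a0 * w)⁻¹ * m) * m * b0⁻¹ := by
        rw [← w1.eq, (m2.inv_left.pow_right 2).eq, pow_two]; group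
    _ = _ := by rw [m4.eq]; group

section
variable {Γ : Type} [LinearOrder Γ]

def FL (x : Γ ≃o Γ) (c : Γ) : Prop := ∀ t, t ≤ c → x t = t
def FR (x : Γ ≃o Γ) (c : Γ) : Prop := ∀ t, c ≤ t → x t = t

theorem FL.mono {x : Γ ≃o Γ} {c d : Γ} (h : FL x c) (k : d ≤ c) : FL x d :=
  fun t ht => h t (ht.trans k)
theorem FR.mono {x : Γ ≃o Γ} {c d : Γ} (h : FR x c) (k : c ≤ d) : FR x d :=
  fun t ht => h t (k.trans ht)
theorem fix_inv {x : Γ ≃o Γ} {t : Γ} (h : x t = t) : (x⁻¹ : Γ ≃o Γ) t = t := by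
  conv_lhs => rw [← h]
  exact RelIso.inv_apply_self x t
theorem FL.inv {x : Γ ≃o Γ} {c : Γ} (h : FL x c) : FL x⁻¹ c := fun t ht => fix_inv (h t ht)
theorem FR.inv {x : Γ ≃o Γ} {c : Γ} (h : FR x c) : FR x⁻¹ c := fun t ht => fix_inv (h t ht)
theorem FL.cj {x : Γ ≃o Γ} {c : Γ} (h : FL x c) (y : Γ ≃o Γ) : FL (y * x * y⁻¹) (y c) :=
  fun t ht => by
  show y (x ((y⁻¹ : Γ ≃o Γ) t)) = t
  rw [h _ (y.le_iff_le.1 (by rw [RelIso.apply_inv_self]; exact ht)), RelIso.apply_inv_self]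
theorem FR.cj {x : Γ ≃o Γ} {c : Γ} (h : FR x c) (y : Γ ≃o Γ) : FR (y * x * y⁻¹) (y c) :=
  fun t ht => by
  show y (x ((y⁻¹ : Γ ≃o Γ) t)) = t
  rw [h _ (y.le_iff_le.1 (by rw [RelIso.apply_inv_self]; exact ht)), RelIso.apply_inv_self]

theorem comm {x y : Γ ≃o Γ} {c : Γ} (h : FR x c) (k : FL y c) : Commute x y := by
  ext t
  show x (y t) = y (x t)
  rcases le_total t c with ht | ht
  · rw [k t ht, k _ ((x.monotone ht).trans (h c le_rfl).le)]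
  · rw [h t ht, h _ ((k c le_rfl).ge.trans (y.monotone ht))]

theorem comm2 {x m : Γ ≃o Γ} {c d : Γ} (hcd : c ≤ d) (h : ∀ t, c ≤ t → t ≤ d → x t = t)
    (k1 : FL m c) (k2 : FR m d) : Commute x m := by
  ext t
  show x (m t) = m (x t)
  rcases le_total t c with ht | ht
  · rw [k1 t ht, k1 _ ((x.monotone ht).trans (h c le_rfl hcd).le)]
  · rcases le_total d t with ht' | ht'
    · rw [k2 t ht', k2 _ ((h d hcd le_rfl).ge.trans (x.monotone ht'))]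
    · rw [h t ht ht', h _ ((k1 c le_rfl).ge.trans (m.monotone ht))
        ((m.monotone ht').trans (k2 d le_rfl).le)]

theorem glue_sm (u v : Γ ≃o Γ) (c : Γ) (h : u c = v c) :
    StrictMono fun t => if t ≤ c then u t else v t := by
  intro s t hst
  beta_reduce
  split_ifs with h1 h2 h2
  · exact u.strictMono hst
  · exact (u.monotone h1).trans_lt (h ▸ v.strictMono (not_le.1 h2))
  · exact absurd (hst.le.trans h2) h1
  · exact v.strictMono hst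

/-- Gluing two order automorphisms which agree at `c`. -/
noncomputable def glue (u v : Γ ≃o Γ) (c : Γ) (h : u c = v c) : Γ ≃o Γ :=
  (glue_sm u v c h).orderIsoOfSurjective _ fun t => by
    rcases le_or_gt t (u c) with k | k
    · exact ⟨u.symm t, by simp [u.symm_apply_le.2 k]⟩
    · exact ⟨v.symm t, by simp [not_le.2 (v.lt_symm_apply.2 (h ▸ k))]⟩

theorem glue_le {u v : Γ ≃o Γ} {c : Γ} (h : u c = v c) {t : Γ} (ht : t ≤ c) :
    glue u v c h t = u t := if_pos ht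

theorem glue_ge {u v : Γ ≃o Γ} {c : Γ} (h : u c = v c) {t : Γ} (ht : c ≤ t) :
    glue u v c h t = v t := by
  rcases ht.eq_or_lt with rfl | ht
  · rw [glue_le h le_rfl, h]
  · exact if_neg (not_le.2 ht)

/-- The cone of maps moving first upwards. -/
def Pos (w : Γ ≃o Γ) : Prop := ∃ x, x < w x ∧ ∀ t, t ≤ x → t ≤ w t

theorem Pos.mul {u v : Γ ≃o Γ} (hu : Pos u) (hv : Pos v) : Pos (u * v) := by
  obtain ⟨x, x1, x2⟩ := hu
  obtain ⟨y, y1, y2⟩ := hv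
  refine ⟨min x y, ?_, fun t ht => (x2 t (ht.trans (min_le_left _ _))).trans
    (u.monotone (y2 t (ht.trans (min_le_right _ _))))⟩
  show _ < u (v _)
  rcases le_total x y with h | h
  · rw [min_eq_left h]
    exact x1.trans_le (u.monotone (y2 x h))
  · rw [min_eq_right h]
    exact (x2 y h).trans_lt (u.strictMono y1)

theorem Pos.cj {u : Γ ≃o Γ} (hu : Pos u) (y : Γ ≃o Γ) : Pos (y * u * y⁻¹) := by
  obtain ⟨x, x1, x2⟩ := hu
  refine ⟨y x, ?_, fun t ht => ?_⟩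
  · show _ < y (u ((y⁻¹ : Γ ≃o Γ) (y x)))
    rw [RelIso.inv_apply_self]
    exact y.strictMono x1
  · show _ ≤ y (u ((y⁻¹ : Γ ≃o Γ) t))
    have := y.monotone (x2 ((y⁻¹ : Γ ≃o Γ) t)
      (y.le_iff_le.1 (by rw [RelIso.apply_inv_self]; exact ht)))
    rwa [RelIso.apply_inv_self] at this

theorem pos_inv {u : Γ ≃o Γ} {x : Γ} (h1 : u x < x) (h2 : ∀ t, t ≤ x → u t ≤ t) : Pos u⁻¹ :=
  ⟨x, u.lt_symm_apply.2 h1, fun t ht => u.le_symm_apply.2 (h2 t ht)⟩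

end

variable {Γ : Type} [AddCommGroup Γ] [LinearOrder Γ] [IsOrderedAddMonoid Γ]

/-- A group of linear order automorphisms, each having a first sign. -/
structure LinG (Λ : Subgroup (Γ ≃o Γ)) : Prop where
  add : ∀ L ∈ Λ, ∀ s t, L (s + t) = L s + L t
  sgn : ∀ L ∈ Λ, L = 1 ∨ (∃ x, 0 ≤ x ∧ L x < x ∧ ∀ t, 0 ≤ t → t ≤ x → L t ≤ t) ∨
    ∃ x, 0 ≤ x ∧ x < L x ∧ ∀ t, 0 ≤ t → t ≤ x → t ≤ L t

variable {Λ : Subgroup (Γ ≃o Γ)}

theorem LinG.sub (h : LinG Λ) {L : Γ ≃o Γ} (hL : L ∈ Λ) (s t : Γ) : L (s - t) = L s - L t := by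
  rw [eq_sub_iff_add_eq, ← h.add L hL, sub_add_cancel]

theorem LinG.zero (h : LinG Λ) {L : Γ ≃o Γ} (hL : L ∈ Λ) : L 0 = 0 := by
  simpa using h.sub hL 0 0

/-- Piecewise affine order automorphisms. -/
def PW (h : LinG Λ) : Subgroup (Γ ≃o Γ) where
  carrier := {w | ∃ S : Finset Γ, ∀ c d, (∀ s ∈ S, s ≤ c ∨ d ≤ s) →
    ∃ L ∈ Λ, ∃ μ, ∀ t, c ≤ t → t ≤ d → w t = L t + μ}
  one_mem' := ⟨∅, fun _ _ _ => ⟨1, one_mem _, 0, fun t _ _ => by simp⟩⟩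
  mul_mem' := by
    classical
    rintro u v ⟨S, hS⟩ ⟨T, hT⟩
    refine ⟨T ∪ S.image v.symm, fun c d hc => ?_⟩
    obtain ⟨L, hL, μ, e⟩ := hS (v c) (v d) fun s hs => by
      rcases hc (v.symm s) (Finset.mem_union_right _ (Finset.mem_image_of_mem _ hs)) with k | k
      · exact Or.inl (v.symm_apply_le.1 k)
      · exact Or.inr (v.le_symm_apply.1 k)
    obtain ⟨L', hL', μ', e'⟩ := hT c d fun s hs => hc s (Finset.mem_union_left _ hs)
    refine ⟨L * L', mul_mem hL hL', L μ' + μ, fun t h1 h2 => ?_⟩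
    show u (v t) = L (L' t) + _
    rw [e _ (v.monotone h1) (v.monotone h2), e' t h1 h2, h.add L hL, add_assoc]
  inv_mem' := by
    classical
    rintro u ⟨S, hS⟩
    refine ⟨S.image u, fun c d hc => ?_⟩
    obtain ⟨L, hL, μ, e⟩ := hS (u.symm c) (u.symm d) fun s hs => by
      rcases hc (u s) (Finset.mem_image_of_mem _ hs) with k | k
      · exact Or.inl (u.le_symm_apply.2 k)
      · exact Or.inr (u.symm_apply_le.2 k)
    refine ⟨L⁻¹, inv_mem hL, -(L⁻¹ : Γ ≃o Γ) μ, fun t h1 h2 => ?_⟩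
    have := e (u.symm t) (u.symm.monotone h1) (u.symm.monotone h2)
    rw [u.apply_symm_apply] at this
    conv_rhs => rw [this, h.add _ (inv_mem hL), RelIso.inv_apply_self, add_neg_cancel_right]
    rfl

/-- Affine maps. -/
def aff (L : Γ ≃o Γ) (μ : Γ) : Γ ≃o Γ := OrderIso.addRight μ * L

theorem aff_apply (L : Γ ≃o Γ) (μ t : Γ) : aff L μ t = L t + μ := rfl

theorem aff_mem (h : LinG Λ) {L : Γ ≃o Γ} (hL : L ∈ Λ) (μ : Γ) : aff L μ ∈ PW h :=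
  ⟨∅, fun _ _ _ => ⟨L, hL, μ, fun _ _ _ => rfl⟩⟩

theorem lin_mem (h : LinG Λ) {L : Γ ≃o Γ} (hL : L ∈ Λ) : L ∈ PW h :=
  ⟨∅, fun _ _ _ => ⟨L, hL, 0, fun _ _ _ => by simp⟩⟩

theorem glue_mem (h : LinG Λ) {u v : Γ ≃o Γ} (hu : u ∈ PW h) (hv : v ∈ PW h) {c : Γ}
    (e : u c = v c) : glue u v c e ∈ PW h := by
  classical
  obtain ⟨S, hS⟩ := hu
  obtain ⟨T, hT⟩ := hv
  refine ⟨insert c (S ∪ T), fun a b hc => ?_⟩
  rcases hc c (Finset.mem_insert_self _ _) with k | k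
  · obtain ⟨L, hL, μ, f⟩ := hT a b fun s hs => hc s (by simp [hs])
    exact ⟨L, hL, μ, fun t h1 h2 => by rw [glue_ge e (k.trans h1), f t h1 h2]⟩
  · obtain ⟨L, hL, μ, f⟩ := hS a b fun s hs => hc s (by simp [hs])
    exact ⟨L, hL, μ, fun t h1 h2 => by rw [glue_le e (h2.trans k), f t h1 h2]⟩

/-- Piecewise affine maps which are translations near `-∞`. -/
def G0 (h : LinG Λ) : Subgroup (Γ ≃o Γ) where
  carrier := {w | w ∈ PW h ∧ ∃ R μ, ∀ t, t ≤ R → w t = t + μ}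
  one_mem' := ⟨one_mem _, 0, 0, fun t _ => by simp⟩
  mul_mem' := by
    rintro u v ⟨hu, R, μ, e⟩ ⟨hv, R', μ', e'⟩
    refine ⟨mul_mem hu hv, min R' (R - μ'), μ' + μ, fun t ht => ?_⟩
    show u (v t) = _
    rw [e' t (ht.trans (min_le_left _ _)), e _ (le_sub_iff_add_le.1 (ht.trans (min_le_right _ _))),
      add_assoc]
  inv_mem' := by
    rintro u ⟨hu, R, μ, e⟩
    refine ⟨inv_mem hu, R + μ, -μ, fun t ht => u.symm_apply_eq.2 ?_⟩
    rw [e _ (by rwa [← sub_eq_add_neg, sub_le_iff_le_add])]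
    simp

theorem G0_of (h : LinG Λ) {w : Γ ≃o Γ} (hw : w ∈ PW h) {c : Γ} (hc : FL w c) : w ∈ G0 h :=
  ⟨hw, c, 0, fun t ht => by simpa using hc t ht⟩

theorem G0_sgn (h : LinG Λ) {w : Γ ≃o Γ} (hw : w ∈ G0 h) (h1 : w ≠ 1) : Pos w ∨ Pos w⁻¹ := by
  classical
  obtain ⟨⟨S, hS⟩, R, μ, e⟩ := hw
  rcases lt_trichotomy μ 0 with k | rfl | k
  · exact Or.inr (pos_inv (x := R) (by rw [e R le_rfl]; simpa using k) fun t ht => by
      rw [e t ht]; simpa using k.le)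
  swap
  · exact Or.inl ⟨R, by rw [e R le_rfl]; simpa using k, fun t ht => by
      rw [e t ht]; simpa using k.le⟩
  obtain ⟨x1, hx1⟩ : ∃ x1, w x1 ≠ x1 := by
    by_contra k
    push Not at k
    exact h1 (RelIso.ext k)
  obtain ⟨c, hc, cmax⟩ := Finset.exists_max_image ((insert R S).filter fun s => FL w s) id
    ⟨R, by simpa [FL] using e⟩
  obtain ⟨d, hd, dmin⟩ := Finset.exists_min_image ((insert x1 S).filter fun s => c < s) id
    ⟨x1, by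
      simp only [Finset.mem_filter, Finset.mem_insert, true_or, true_and]
      by_contra k
      exact hx1 ((Finset.mem_filter.1 hc).2 x1 (not_lt.1 k))⟩
  have fc : FL w c := (Finset.mem_filter.1 hc).2
  have cd : c < d := (Finset.mem_filter.1 hd).2
  have nd : ¬ FL w d := fun k => by
    rcases Finset.mem_insert.1 (Finset.mem_filter.1 hd).1 with rfl | k'
    · exact hx1 (k _ le_rfl)
    · exact absurd (cmax d (Finset.mem_filter.2 ⟨Finset.mem_insert_of_mem k', k⟩)) (not_le.2 cd)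
  obtain ⟨L, hL, ν, f⟩ := hS c d fun s hs => by
    rcases le_or_gt s c with k | k
    · exact Or.inl k
    · exact Or.inr (dmin s (Finset.mem_filter.2 ⟨Finset.mem_insert_of_mem hs, k⟩))
  have f' : ∀ t, c ≤ t → t ≤ d → w t = c + L (t - c) := fun t t1 t2 => by
    have := f c le_rfl cd.le
    rw [fc c le_rfl] at this
    rw [f t t1 t2, h.sub hL]
    conv_rhs => enter [1]; rw [this]
    abel
  obtain ⟨y, y1, y2⟩ : ∃ y, y ≤ d ∧ w y ≠ y := by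
    by_contra k
    push Not at k
    exact nd k
  have cy : c ≤ y := le_of_lt (not_le.1 fun k => y2 (fc y k))
  have y3 : L (y - c) ≠ y - c := fun k => y2 (by rw [f' y cy y1, k]; abel)
  rcases h.sgn L hL with rfl | ⟨x, x0, x2, x3⟩ | ⟨x, x0, x2, x3⟩
  · exact absurd rfl y3
  · right
    obtain ⟨z, z0, z1, z2, z3⟩ : ∃ z, 0 ≤ z ∧ z ≤ x ∧ c + z ≤ d ∧ L z < z := by
      rcases le_total x (y - c) with k | k
      · exact ⟨x, x0, le_rfl, (le_sub_iff_add_le'.1 k).trans y1, x2⟩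
      · exact ⟨y - c, sub_nonneg.2 cy, k, by simpa using y1,
          lt_of_le_of_ne (x3 _ (sub_nonneg.2 cy) k) y3⟩
    refine pos_inv (x := c + z) ?_ fun t ht => ?_
    · rw [f' _ (by simpa using z0) z2]
      simpa using z3
    · rcases le_total t c with k | k
      · exact (fc t k).le
      · rw [f' t k (ht.trans z2), ← le_sub_iff_add_le']
        exact x3 _ (sub_nonneg.2 k) ((sub_le_iff_le_add'.2 ht).trans z1)
  · left
    obtain ⟨z, z0, z1, z2, z3⟩ : ∃ z, 0 ≤ z ∧ z ≤ x ∧ c + z ≤ d ∧ z < L z := by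
      rcases le_total x (y - c) with k | k
      · exact ⟨x, x0, le_rfl, (le_sub_iff_add_le'.1 k).trans y1, x2⟩
      · exact ⟨y - c, sub_nonneg.2 cy, k, by simpa using y1,
          lt_of_le_of_ne (x3 _ (sub_nonneg.2 cy) k) y3.symm⟩
    refine ⟨c + z, ?_, fun t ht => ?_⟩
    · rw [f' _ (by simpa using z0) z2]
      simpa using z3
    · rcases le_total t c with k | k
      · exact (fc t k).ge
      · rw [f' t k (ht.trans z2), ← sub_le_iff_le_add']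
        exact x3 _ (sub_nonneg.2 k) ((sub_le_iff_le_add'.2 ht).trans z1)

/-- Linear maps fixing `E`. -/
def Fx (Λ : Subgroup (Γ ≃o Γ)) (E : Γ) : Subgroup (Γ ≃o Γ) where
  carrier := {L | L ∈ Λ ∧ L E = E}
  one_mem' := ⟨one_mem _, rfl⟩
  mul_mem' := fun {a b} ha hb => ⟨mul_mem ha.1 hb.1, by
    show a (b E) = E
    rw [hb.2, ha.2]⟩
  inv_mem' := fun ha => ⟨inv_mem ha.1, fix_inv ha.2⟩

theorem exι (h : LinG Λ) {E : Γ} (hE : 0 ≤ E) : ∃ ι : Fx Λ E →* (Γ ≃o Γ), ∀ L, ι L ∈ PW h ∧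
    FL (ι L) 0 ∧ FR (ι L) E ∧ ∀ t, 0 ≤ t → t ≤ E → ι L t = (L : Γ ≃o Γ) t := by
  have : ∀ L : Fx Λ E, ∃ w : Γ ≃o Γ, w ∈ PW h ∧ FL w 0 ∧ FR w E ∧
      ∀ t, 0 ≤ t → t ≤ E → w t = (L : Γ ≃o Γ) t := fun L => by
    have e1 : (L : Γ ≃o Γ) E = (1 : Γ ≃o Γ) E := L.2.2
    have e2 : (1 : Γ ≃o Γ) 0 = glue _ _ _ e1 0 := by rw [glue_le e1 hE, h.zero L.2.1]; rfl
    refine ⟨glue _ _ _ e2, glue_mem h (one_mem _) (glue_mem h (lin_mem h L.2.1) (one_mem _) e1) e2,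
      fun t ht => glue_le e2 ht, fun t ht => ?_, fun t h1 h2 => ?_⟩
    · rw [glue_ge e2 (hE.trans ht), glue_ge e1 ht]; rfl
    · rw [glue_ge e2 h1, glue_le e1 h2]
  choose w w1 w2 w3 w4 using this
  refine ⟨MonoidHom.mk' w fun a b => RelIso.ext fun t => ?_, fun L => ⟨w1 L, w2 L, w3 L, w4 L⟩⟩
  show _ = w a (w b t)
  rcases le_total t 0 with k | k
  · rw [w2 _ t k, w2 _ t k, w2 _ t k]
  · rcases le_total E t with k' | k'
    · rw [w3 _ t k', w3 _ t k', w3 _ t k']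
    · rw [w4 _ t k k', w4 _ t k k', w4]
      · rfl
      · exact (h.zero b.2.1).ge.trans ((b : Γ ≃o Γ).monotone k)
      · exact ((b : Γ ≃o Γ).monotone k').trans b.2.2.le

theorem geo (h : LinG Λ) {E s : Γ} {τ : Γ ≃o Γ} (hτ : τ ∈ Λ) (s0 : 0 ≤ s) (hE : 0 ≤ E)
    (hs : s + τ E + (s + τ E) ≤ E) (ι : Fx Λ E →* (Γ ≃o Γ)) (hι : ∀ L, ι L ∈ PW h ∧
      FL (ι L) 0 ∧ FR (ι L) E ∧ ∀ t, 0 ≤ t → t ≤ E → ι L t = (L : Γ ≃o Γ) t)
    (F K U V : Fx Λ E) (hUV : (F * K)⁻¹ ^ 3 = ⁅U, V⁆)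
    (hM : ∀ t, 0 ≤ t → t ≤ s + τ E → (F * K : Fx Λ E).1 t = t)
    (hF : (F : Γ ≃o Γ) (s + τ E) ≤ s) {P : Set (Γ ≃o Γ)} (hP : NS (G0 h) P) (hf : ι F ∈ P)
    (hk : ι K ∈ P) : (1 : Γ ≃o Γ) ∈ P := by
  have τ0 : ∀ t, 0 ≤ t → 0 ≤ τ t := fun t ht => (h.zero hτ).ge.trans (τ.monotone ht)
  obtain ⟨s', hs'⟩ : ∃ s', s' = s + τ E := ⟨_, rfl⟩
  rw [← hs'] at hs hM hF
  have ss' : s ≤ s' := by rw [hs']; simpa using τ0 E hE
  have s'0 : 0 ≤ s' := s0.trans ss'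
  have a1 : s' ≤ E - s' := le_sub_iff_add_le.2 hs
  have a2 : E - s' ≤ E := by simpa using s'0
  have a3 : s' ≤ E := a1.trans a2
  have a4 : E - s' ≤ E - s := sub_le_sub_left ss' E
  have a5 : τ s' ≤ s' := (τ.monotone a3).trans (by rw [hs']; simpa using s0)
  have em : ι F * ι K = ι (F * K) := (map_mul _ _ _).symm
  have mL : FL (ι F * ι K) s' := fun t ht => by
    rw [em]
    rcases le_total t 0 with k | k
    · exact (hι _).2.1 t k
    · rw [(hι _).2.2.2 t k (ht.trans a3), hM t k ht]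
  have mR : FR (ι F * ι K) (E - s') := fun t ht => by
    rw [em]
    rcases le_total E t with k | k
    · exact (hι _).2.2.1 t k
    · rw [(hι _).2.2.2 t (s'0.trans (a1.trans ht)) k]
      have := h.sub (F * K).2.1 E (E - t)
      rw [(F * K).2.2, hM _ (sub_nonneg.2 k) (sub_le_comm.1 ht)] at this
      simpa using this
  have f1 : ι F s' ≤ s := by rwa [(hι F).2.2.2 s' s'0 a3]
  have f2 : E - s ≤ ι F (E - s') := by
    rw [(hι F).2.2.2 _ (s'0.trans a1) a2, h.sub F.2.1, F.2.2]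
    exact sub_le_sub_left hF E
  have left : ∀ a ∈ PW h, ∀ b ∈ PW h, FL a s → FR a s' → FL b s → FR b s' →
      ⁅a, b⁆ * (ι F * ι K) ^ 2 ∈ P := fun a ha b hb l1 l2 l3 l4 =>
    base hP hf hk (G0_of h ha l1) (G0_of h (inv_mem ha) l1.inv) (G0_of h hb l3)
      (comm ((l2.inv.cj _).mono f1) l3) (comm l2 mL) (comm l4 mL)
      (comm ((l2.inv.cj _).mono (f1.trans ss')) mL)
  have right : ∀ a ∈ PW h, ∀ b ∈ PW h, FL a (E - s') → FL b (E - s') → FR b (E - s) →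
      ⁅a, b⁆ * (ι F * ι K) ^ 2 ∈ P := fun a ha b hb l1 l3 l4 =>
    base hP hf hk (G0_of h ha l1) (G0_of h (inv_mem ha) l1.inv) (G0_of h hb l3)
      (comm l4 ((l1.inv.cj _).mono f2)).symm (comm mR l1).symm (comm mR l3).symm
      (comm mR ((l1.inv.cj _).mono (a4.trans f2))).symm
  have eUV : ⁅ι U, ι V⁆ = (ι F * ι K)⁻¹ ^ 3 := by
    rw [← map_commutatorElement, ← hUV, map_pow, map_inv, map_mul]
  have hm : ι F * ι K ∈ P := hP.mul _ hf _ hk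
  generalize ι F * ι K = m at *
  let y1 := aff τ s
  have y1m : y1 ∈ PW h := aff_mem h hτ s
  have y10 : y1 0 = s := by simp [y1, aff_apply, h.zero hτ]
  have y1E : y1 E = s' := by rw [hs', add_comm]; rfl
  have y1z : y1 (E - s') = s' - τ s' := by
    show τ (E - s') + s = _
    rw [h.sub hτ]
    conv_rhs => enter [1]; rw [hs']
    abel
  let y2 := aff τ⁻¹ (s' - τ s' - (τ⁻¹ : Γ ≃o Γ) (E - s'))
  have e1 : y1 (E - s') = y2 (E - s') := by rw [y1z]; simp [y2, aff_apply]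
  have e2 : aff 1 (y1 s' - s') s' = glue y1 y2 _ e1 s' := by rw [glue_le e1 a1]; simp [aff_apply]
  let y := glue _ _ _ e2
  have ym : y ∈ G0 h := ⟨glue_mem h (aff_mem h (one_mem _) _)
    (glue_mem h y1m (aff_mem h (inv_mem hτ) _) e1) e2, s', _, fun t ht => glue_le e2 ht⟩
  have yy1 : ∀ t, s' ≤ t → t ≤ E - s' → y t = y1 t := fun t t1 t2 => by
    rw [glue_ge e2 t1, glue_le e1 t2]
  have yz : y (E - s') = s' - τ s' := by rw [yy1 _ a1 le_rfl, y1z]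
  have yE : E ≤ y (E - s) := by
    rw [glue_ge e2 (a1.trans a4), glue_ge e1 a4]
    have : E - s = E - s' + τ E := by rw [hs']; abel
    show _ ≤ (τ⁻¹ : Γ ≃o Γ) (E - s) + (s' - τ s' - (τ⁻¹ : Γ ≃o Γ) (E - s'))
    rw [this, h.add _ (inv_mem hτ), RelIso.inv_apply_self]
    have : E ≤ E + (s' - τ s') := by simpa using a5
    convert this using 1
    abel
  have c1 : Commute (y⁻¹ * y1) m := comm2 a1 (fun t t1 t2 => by
    show (y⁻¹ : Γ ≃o Γ) (y1 t) = t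
    rw [← yy1 t t1 t2, RelIso.inv_apply_self]) mL mR
  have em1 : y1 * m * y1⁻¹ = y * m * y⁻¹ := by
    calc y1 * m * y1⁻¹ = y * (y⁻¹ * y1 * m) * y1⁻¹ := by group
      _ = _ := by rw [c1.eq]; group
  have e3 : aff τ (s' - τ s') s' = (1 : Γ ≃o Γ) s' := by simp [aff_apply]
  let z := glue _ _ _ e3
  have zm : z ∈ PW h := glue_mem h (aff_mem h hτ _) (one_mem _) e3
  have zR : FR z s' := fun t ht => glue_ge e3 ht
  have z0 : z 0 = s' - τ s' := by rw [glue_le e3 s'0]; simp [aff_apply, h.zero hτ]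
  have c2 : Commute z m := comm zR mL
  have k1 := left _ (mul_mem (mul_mem y1m (hι U).1) (inv_mem y1m)) _
    (mul_mem (mul_mem y1m (hι V).1) (inv_mem y1m)) (y10 ▸ (hι U).2.1.cj y1)
    (y1E ▸ (hι U).2.2.1.cj y1) (y10 ▸ (hι V).2.1.cj y1) (y1E ▸ (hι V).2.2.1.cj y1)
  have x0 : (y⁻¹ * z : Γ ≃o Γ) 0 = E - s' := by
    show (y⁻¹ : Γ ≃o Γ) (z 0) = _
    rw [z0, ← yz, RelIso.inv_apply_self]
  have xE : (y⁻¹ * z : Γ ≃o Γ) E ≤ E - s := by
    show (y⁻¹ : Γ ≃o Γ) (z E) ≤ _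
    rw [zR E a3]
    exact y.symm_apply_le.2 yE
  have xm : y⁻¹ * z ∈ PW h := mul_mem (inv_mem ym.1) zm
  have k2 := hP.cj y ym _ (right _ (mul_mem (mul_mem xm (hι U).1) (inv_mem xm)) _
    (mul_mem (mul_mem xm (hι V).1) (inv_mem xm)) (x0 ▸ (hι U).2.1.cj _) (x0 ▸ (hι V).2.1.cj _)
    (((hι V).2.2.1.cj _).mono xE))
  have g1 : ∀ x a b : Γ ≃o Γ, ⁅x * a * x⁻¹, x * b * x⁻¹⁆ = x * ⁅a, b⁆ * x⁻¹ := fun x a b => by
    simp only [commutatorElement_def]; group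
  rw [g1, eUV] at k1 k2
  have := hP.mul _ (hP.mul _ (hP.mul _ hm _ k2) _ (hP.cj y ym _ hm)) _ k1
  convert this using 1
  have g2 : y1 * m⁻¹ ^ 3 * y1⁻¹ = y * m⁻¹ ^ 3 * y⁻¹ := by
    rw [← conj_pow, ← conj_pow, ← conj_inv, ← conj_inv, em1]
  have g3 : y⁻¹ * z * m⁻¹ ^ 3 = y⁻¹ * m⁻¹ ^ 3 * z := by
    rw [mul_assoc, (c2.inv_right.pow_right 3).eq, mul_assoc]
  rw [g2, g3]
  group

end Pool.Agent.H.MP_ab86ea_al
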