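import Pool.Agent.H.MP_23b8d1_al.A

set_option autoImplicit false
set_option linter.unusedSectionVars false

namespace Pool.Agent.H.MP_ab86ea_al

open Pool.Agent.H.MP_23b8d1_al

variable {G : Type} [Group G] [LinearOrder G] [MulLeftMono G] [MulRightMono G]

theorem zsm {k : G} (hk : 1 < k) : StrictMono fun p : ℤ => k ^ p :=
  strictMono_int_of_lt_succ fun n => by
    rw [zpow_add_one]
    exact lt_mul_of_one_lt_right' _ hk

theorem cj_le (x : G) {a b : G} : x * a * x⁻¹ ≤ x * b * x⁻¹ ↔ a ≤ b := by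
  rw [mul_le_mul_iff_right, mul_le_mul_iff_left]

theorem cj_lt (x : G) {a b : G} : x * a * x⁻¹ < x * b * x⁻¹ ↔ a < b := by
  rw [mul_lt_mul_iff_right, mul_lt_mul_iff_left]

theorem swap_pow {x y : G} (h : x * y ≤ y * x) (m : ℕ) : x ^ m * y ≤ y * x ^ m := by
  induction m with
  | zero => simp
  | succ m ih =>
    calc x ^ (m + 1) * y = x ^ m * (x * y) := by rw [pow_succ, mul_assoc]
      _ ≤ x ^ m * (y * x) := by gcongr
      _ = (x ^ m * y) * x := by rw [mul_assoc]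
      _ ≤ (y * x ^ m) * x := by gcongr
      _ = _ := by rw [pow_succ, mul_assoc]

theorem swap_pow' {x y : G} (h : y * x ≤ x * y) (m : ℕ) : y * x ^ m ≤ x ^ m * y := by
  induction m with
  | zero => simp
  | succ m ih =>
    calc y * x ^ (m + 1) = (y * x ^ m) * x := by rw [pow_succ, mul_assoc]
      _ ≤ (x ^ m * y) * x := by gcongr
      _ = x ^ m * (y * x) := by rw [mul_assoc]
      _ ≤ x ^ m * (x * y) := by gcongr
      _ = _ := by rw [pow_succ, mul_assoc]

theorem mul_pow_le (x y : G) (m : ℕ) :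
    (x * y) ^ m ≤ x ^ m * y ^ m ∨ (x * y) ^ m ≤ y ^ m * x ^ m := by
  rcases le_total (x * y) (y * x) with h | h
  · right
    induction m with
    | zero => simp
    | succ m ih =>
      calc (x * y) ^ (m + 1) = (x * y) ^ m * (x * y) := pow_succ _ _
        _ ≤ (y ^ m * x ^ m) * (x * y) := by gcongr
        _ = y ^ m * (x ^ (m + 1) * y) := by rw [pow_succ]; group
        _ ≤ y ^ m * (y * x ^ (m + 1)) := by have := swap_pow h (m + 1); gcongr
        _ = _ := by rw [pow_succ y]; group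
  · left
    induction m with
    | zero => simp
    | succ m ih =>
      calc (x * y) ^ (m + 1) = (x * y) * (x * y) ^ m := pow_succ' _ _
        _ ≤ (x * y) * (x ^ m * y ^ m) := by gcongr
        _ = x * (y * x ^ m) * y ^ m := by group
        _ ≤ x * (x ^ m * y) * y ^ m := by have := swap_pow' h m; gcongr
        _ = _ := by rw [pow_succ' x, pow_succ' y]; group

theorem approx {a b c : ℝ} (h : ∀ M : ℕ, (M : ℝ) * a ≤ M * b + c) : a ≤ b := by
  by_contra k
  obtain ⟨M, hM⟩ := exists_nat_gt (c / (a - b))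
  rw [div_lt_iff₀ (by linarith)] at hM
  linarith [h M]

def Ht' (k x : G) (r : ℝ) : Prop := ∀ (p : ℤ) (n : ℕ), k ^ p ≤ x ^ n → (p : ℝ) ≤ n * r

/-- `x` has height `r` with respect to the unit `k`. -/
def Ht (k x : G) (r : ℝ) : Prop := Ht' k x r ∧ Ht' k x⁻¹ (-r)

theorem Ht'.lt {k x : G} {r : ℝ} (h : Ht' k x r) (n : ℕ) :
    ∃ i : ℤ, x ^ n ≤ k ^ i ∧ (i : ℝ) ≤ n * r + 1 := by
  refine ⟨⌊n * r⌋ + 1, ?_, by push_cast; linarith [Int.floor_le (n * r)]⟩
  by_contra e
  have := h _ n (le_of_lt (not_le.1 e))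
  push_cast at this
  linarith [Int.lt_floor_add_one (n * r)]

theorem pw {k x : G} {p : ℤ} {n : ℕ} (h : k ^ p ≤ x ^ n) (M : ℕ) : k ^ (p * M) ≤ x ^ (n * M) := by
  rw [zpow_mul, zpow_natCast, pow_mul]
  exact pow_le_pow_left' h M

theorem Ht'.mul {k x y : G} {r s : ℝ} (hk : 1 < k) (hx : Ht' k x r) (hy : Ht' k y s) :
    Ht' k (x * y) (r + s) := by
  intro p n h
  refine approx (c := 2) fun M => ?_
  obtain ⟨i, i1, i2⟩ := hx.lt (n * M)
  obtain ⟨j, j1, j2⟩ := hy.lt (n * M)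
  have : k ^ (p * M) ≤ k ^ (i + j) := by
    refine (pw h M).trans ?_
    rcases mul_pow_le x y (n * M) with e | e
    · exact e.trans (by rw [zpow_add]; exact mul_le_mul' i1 j1)
    · exact e.trans (by rw [add_comm, zpow_add]; exact mul_le_mul' j1 i1)
  have : ((p * M : ℤ) : ℝ) ≤ (i + j : ℤ) := by exact_mod_cast (zsm hk).le_iff_le.1 this
  push_cast at *
  linarith

theorem Ht.mul {k x y : G} {r s : ℝ} (hk : 1 < k) (hx : Ht k x r) (hy : Ht k y s) :
    Ht k (x * y) (r + s) :=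
  ⟨hx.1.mul hk hy.1, by rw [mul_inv_rev, add_comm, neg_add]; exact hy.2.mul hk hx.2⟩

theorem Ht.inv {k x : G} {r : ℝ} (hx : Ht k x r) : Ht k x⁻¹ (-r) := ⟨hx.2, by simpa using hx.1⟩

theorem Ht.z {k x : G} {r : ℝ} (hx : Ht k x r) (p i : ℤ) (h : k ^ p ≤ x ^ i) : (p : ℝ) ≤ i * r := by
  obtain ⟨n, rfl | rfl⟩ := Int.eq_nat_or_neg i
  · exact_mod_cast hx.1 p n (by simpa using h)
  · have := hx.2 p n (by simpa using h)
    push_cast
    linarith

theorem Ht'.comp {k k' x : G} {l r : ℝ} (h1 : Ht k k' l) (hl : 0 ≤ l) (h2 : Ht' k' x r) :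
    Ht' k x (l * r) := by
  intro p n h
  refine approx (c := l) fun M => ?_
  obtain ⟨i, i1, i2⟩ := h2.lt (n * M)
  have := h1.z _ _ ((pw h M).trans i1)
  have := mul_le_mul_of_nonneg_right i2 hl
  push_cast at *
  linarith

theorem Ht.comp {k k' x : G} {l r : ℝ} (h1 : Ht k k' l) (hl : 0 ≤ l) (h2 : Ht k' x r) :
    Ht k x (l * r) := ⟨Ht'.comp h1 hl h2.1, by rw [← mul_neg]; exact Ht'.comp h1 hl h2.2⟩

theorem Ht.cj {k x : G} {r : ℝ} (h : Ht k x r) (y : G) : Ht (y * k * y⁻¹) (y * x * y⁻¹) r := by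
  constructor
  · intro p n e
    rw [conj_zpow, conj_pow, cj_le] at e
    exact h.1 p n e
  · intro p n e
    rw [conj_inv, conj_zpow, conj_pow, cj_le] at e
    exact h.2 p n e

theorem Ht.self {k : G} (hk : 1 < k) : Ht k k 1 := by
  constructor
  · intro p n e
    rw [← zpow_natCast] at e
    have : (p : ℝ) ≤ (n : ℤ) := by exact_mod_cast (zsm hk).le_iff_le.1 e
    simpa using this
  · intro p n e
    rw [inv_pow, ← zpow_natCast, ← zpow_neg] at e
    have : (p : ℝ) ≤ (-n : ℤ) := by exact_mod_cast (zsm hk).le_iff_le.1 e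
    simpa using this

theorem exHt {k x : G} (hx : 1 < x) (h : x ≤ k) : ∃ l, 0 ≤ l ∧ Ht k x l := by
  have hk := hx.trans_le h
  let S : Set ℝ := {r | ∃ (p : ℤ) (n : ℕ), 0 < n ∧ k ^ p ≤ x ^ n ∧ r = p / n}
  have h0 : (0 : ℝ) ∈ S := ⟨0, 1, one_pos, by simpa using hx.le, by simp⟩
  have bd : BddAbove S := ⟨1, by
    rintro _ ⟨p, n, hn, e, rfl⟩
    have := (Ht.self hk).1 p n (e.trans (pow_le_pow_left' h n))
    rw [div_le_iff₀ (by positivity)]
    linarith⟩
  have zero : ∀ p : ℤ, k ^ p ≤ 1 → (p : ℝ) ≤ 0 := fun p e => by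
    simpa using (Ht.self hk).1 p 0 (by simpa using e)
  refine ⟨sSup S, le_csSup bd h0, fun p n e => ?_, fun p n e => ?_⟩
  · rcases Nat.eq_zero_or_pos n with rfl | hn
    · simpa using zero p (by simpa using e)
    · have := le_csSup bd ⟨p, n, hn, e, rfl⟩
      rw [div_le_iff₀ (by positivity)] at this
      linarith
  · rcases Nat.eq_zero_or_pos n with rfl | hn
    · simpa using zero p (by simpa using e)
    · have : sSup S ≤ -p / n := csSup_le ⟨0, h0⟩ (by
        rintro _ ⟨p', n', hn', e', rfl⟩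
        have a1 := pw e n'
        have a2 := pw e' n
        have a3 := mul_le_mul' a1 a2
        rw [← zpow_add, mul_comm n' n, inv_pow, inv_mul_cancel] at a3
        have := zero _ a3
        rw [div_le_div_iff₀ (by positivity) (by positivity)]
        push_cast at this
        linarith)
      rw [le_div_iff₀ (by positivity)] at this
      linarith

/-- Admissible heights. -/
inductive Lam (g : G) : ℝ → Prop
  | one : Lam g 1
  | add (r s : ℝ) : Lam g r → Lam g s → Lam g (r + s)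
  | smul (n : G) (l r : ℝ) : 0 < l → Ht g (n * g * n⁻¹) l → Lam g r → Lam g (l * r)

theorem Lam.pos {g : G} {r : ℝ} (h : Lam g r) : 0 < r := by
  induction h with
  | one => exact one_pos
  | add r s _ _ h1 h2 => exact add_pos h1 h2
  | smul n l r h1 _ _ h2 => exact mul_pos h1 h2

theorem one_lt_cj {g : G} (hg : 1 < g) (x : G) : 1 < x * g * x⁻¹ := by
  simpa using (cj_lt x).2 hg

theorem claim1 {g a : G} (hg : 1 < g) (h : InS Set.univ g a) :
    ∃ x r, Lam g r ∧ Ht (x * g * x⁻¹) a r := by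
  induction h with
  | cj x _ => exact ⟨x, 1, Lam.one, Ht.self (one_lt_cj hg x)⟩
  | mul a b _ _ h1 h2 =>
    obtain ⟨x, r, l1, h1⟩ := h1
    obtain ⟨y, s, l2, h2⟩ := h2
    have key : ∀ (x y b : G) (r s : ℝ), Lam g r → Lam g s → y * g * y⁻¹ ≤ x * g * x⁻¹ →
        Ht (y * g * y⁻¹) b s → ∃ s', Ht (x * g * x⁻¹) b s' ∧ Lam g (r + s') := by
      intro x y b r s l1 l2 e h2
      obtain ⟨l, l0, hl⟩ := exHt (one_lt_cj hg y) e
      refine ⟨_, hl.comp l0 h2, ?_⟩
      rcases l0.eq_or_lt with rfl | l0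
      · simpa using l1
      · refine Lam.add _ _ l1 (Lam.smul (x⁻¹ * y) l s l0 ?_ l2)
        convert hl.cj x⁻¹ using 1 <;> group
    rcases le_total (y * g * y⁻¹) (x * g * x⁻¹) with e | e
    · obtain ⟨s', k1, k2⟩ := key x y b r s l1 l2 e h2
      exact ⟨x, _, k2, h1.mul (one_lt_cj hg x) k1⟩
    · obtain ⟨s', k1, k2⟩ := key y x a s r l2 l1 e h1
      exact ⟨y, _, by rwa [add_comm] at k2, k1.mul (one_lt_cj hg y) h2⟩

theorem claim2 {g a a' : G} {r s : ℝ} (hg : 1 < g) (ha : InS Set.univ a a') (h : Ht g a' r)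
    (hs : Lam g s) : ∃ h, InS Set.univ a h ∧ Ht g h (s * r) := by
  induction hs with
  | one => exact ⟨a', ha, by simpa using h⟩
  | add s t _ _ h1 h2 =>
    obtain ⟨u, u1, u2⟩ := h1
    obtain ⟨v, v1, v2⟩ := h2
    exact ⟨u * v, InS.mul _ _ u1 v1, by rw [add_mul]; exact u2.mul hg v2⟩
  | smul n l s l0 hl _ h1 =>
    obtain ⟨u, u1, u2⟩ := h1
    exact ⟨_, u1.conj n, by rw [mul_assoc l]; exact hl.comp l0.le (u2.cj n)⟩

theorem holder {g a b : G} (hg : 1 < g) (ha : InS Set.univ g a) (hb : InS Set.univ g b) :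
    ∃ f h, InS Set.univ b f ∧ InS Set.univ a h ∧ 1 < f ∧ ∀ n : ℤ, (f * h⁻¹) ^ n < f := by
  obtain ⟨x, r, l1, h1⟩ := claim1 hg ha
  obtain ⟨y, s, l2, h2⟩ := claim1 hg hb
  have h1' : Ht g (x⁻¹ * a * x⁻¹⁻¹) r := by convert h1.cj x⁻¹ using 1; group
  have h2' : Ht g (y⁻¹ * b * y⁻¹⁻¹) s := by convert h2.cj y⁻¹ using 1; group
  obtain ⟨h, u1, u2⟩ := claim2 hg (InS.cj _ trivial) h1' l2
  obtain ⟨f, v1, v2⟩ := claim2 hg (InS.cj _ trivial) h2' l1
  have p := mul_pos l1.pos l2.pos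
  have m0 : Ht g (f * h⁻¹) 0 := by convert v2.mul hg u2.inv using 1; ring
  have key : ∀ z, Ht g z 0 → z < f := by
    intro z hz
    by_contra e
    have := (hz.inv.mul hg v2).inv.1
    have e' : 1 ≤ (z⁻¹ * f)⁻¹ := by
      rw [mul_inv_rev, inv_inv, le_inv_mul_iff_mul_le, mul_one]
      exact not_lt.1 e
    have := this 0 1 (by simpa using e')
    norm_num at this
    linarith
  have z1 : Ht g 1 0 := by simpa using v2.mul hg v2.inv
  refine ⟨f, h, v1, u1, key 1 z1, fun n => key _ ?_⟩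
  induction n using Int.induction_on with
  | zero => simpa using z1
  | succ n ih => rw [zpow_add_one]; simpa using ih.mul hg m0
  | pred n ih => rw [zpow_sub_one]; simpa using ih.mul hg m0.inv

end Pool.Agent.H.MP_ab86ea_al
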