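import Pool.Agent.H.MP_ab86ea_al.A

set_option autoImplicit false
set_option linter.unusedSectionVars false

namespace Pool.Agent.H.MP_ab86ea_al

open Pool.Agent.H.MP_23b8d1_al

/-- `φ` is trivial on a tail and strictly increasing just before it. -/
def Up {Y : Type} [LinearOrder Y] (φ : Y ≃o Y) : Prop :=
  ∃ y0, y0 < φ y0 ∧ ∀ y, y0 ≤ y → y < φ y ∨ ∀ k, y ≤ k → φ k = k

variable {G : Type} [Group G] [LinearOrder G] [MulLeftMono G] [MulRightMono G]

/-- Elements infinitely smaller than `k`. -/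
def D (k : G) : Set G := {x | ∀ n : ℤ, x ^ n < k}

theorem D_mono {k k' : G} (h : k ≤ k') : D k ⊆ D k' := fun _ hx n => (hx n).trans_le h

theorem D_one {k : G} (hk : 1 < k) : (1 : G) ∈ D k := fun n => by simpa using hk

theorem D_inv {k x : G} (h : x ∈ D k) : x⁻¹ ∈ D k := fun n => by simpa using h (-n)

theorem D_of {k x μ : G} (h : μ ∈ D k) (h1 : x ≤ μ) (h2 : x⁻¹ ≤ μ) : x ∈ D k := fun i => by
  obtain ⟨n, rfl | rfl⟩ := Int.eq_nat_or_neg i
  · simpa using (pow_le_pow_left' h1 n).trans_lt (by simpa using h n)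
  · simpa using (pow_le_pow_left' h2 n).trans_lt (by simpa using h n)

theorem D_zpow {k x : G} (h : x ∈ D k) (i : ℤ) : x ^ i ∈ D k := fun n => by
  rw [← zpow_mul]; exact h _

theorem D_max {k x y : G} (hx : x ∈ D k) (hy : y ∈ D k) : max x y ∈ D k := by
  rcases max_choice x y with e | e <;> rwa [e]

theorem D_mul {k x y : G} (hx : x ∈ D k) (hy : y ∈ D k) : x * y ∈ D k := by
  have h := D_zpow (D_max (D_max hx (D_inv hx)) (D_max hy (D_inv hy))) 2
  rw [zpow_two] at h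
  refine D_of h (mul_le_mul' (by simp) (by simp)) ?_
  rw [mul_inv_rev]
  exact mul_le_mul' (by simp) (by simp)

theorem D_conv {k g x : G} (hg : 1 ≤ g) (h : g ≤ x) (hx : x ∈ D k) : g ∈ D k :=
  D_of hx h ((Left.inv_le_one_iff.2 hg).trans (hg.trans h))

theorem D_sub {k g : G} (hg : 1 < g) (h : g ∉ D k) : D k ⊆ D g := fun _ hx n => by
  by_contra e
  exact h (D_conv hg.le (not_lt.1 e) (D_zpow hx n))

theorem D_cj (g k : G) : (fun z => g * z * g⁻¹) '' D k = D (g * k * g⁻¹) := by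
  ext z
  constructor
  · rintro ⟨x, hx, rfl⟩ n
    rw [conj_zpow, cj_lt]
    exact hx n
  · intro hz
    refine ⟨g⁻¹ * z * g⁻¹⁻¹, fun n => ?_, by group⟩
    rw [conj_zpow, ← cj_lt g]
    convert hz n using 1
    group

theorem D_fix {g k : G} (h : g ∈ D k) : D (g * k * g⁻¹) = D k := by
  rw [← D_cj]
  ext z
  constructor
  · rintro ⟨x, hx, rfl⟩
    exact D_mul (D_mul h hx) (D_inv h)
  · intro hz
    exact ⟨g⁻¹ * z * g, D_mul (D_mul (D_inv h) hz) h, by group⟩

/-- The lower set of a right coset. -/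
def L (A : Set G) (x : G) : Set G := {z | ∃ d ∈ A, z ≤ d * x}

theorem L_mono (A : Set G) {x y : G} (h : x ≤ y) : L A x ⊆ L A y :=
  fun _ ⟨d, hd, e⟩ => ⟨d, hd, e.trans (by gcongr)⟩

theorem L_cj (g k x : G) : (fun z => g * z) '' L (D k) x = L (D (g * k * g⁻¹)) (g * x) := by
  rw [← D_cj]
  ext z
  constructor
  · rintro ⟨y, ⟨d, hd, e⟩, rfl⟩
    refine ⟨_, ⟨d, hd, rfl⟩, ?_⟩
    calc g * y ≤ g * (d * x) := by gcongr
      _ = _ := by group
  · rintro ⟨_, ⟨d, hd, rfl⟩, e⟩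
    refine ⟨g⁻¹ * z, ⟨d, hd, ?_⟩, by group⟩
    rw [inv_mul_le_iff_le_mul]
    convert e using 1
    group

theorem L_fix {g k : G} (h : g ∈ D k) (x : G) : L (D k) (g * x) = L (D k) x := by
  ext z
  constructor
  · rintro ⟨d, hd, e⟩
    exact ⟨d * g, D_mul hd h, by rwa [mul_assoc]⟩
  · rintro ⟨d, hd, e⟩
    exact ⟨d * g⁻¹, D_mul hd (D_inv h), by simpa [mul_assoc] using e⟩

theorem L_lt {g k : G} (hk : 1 < k) (hg : 1 < g) (h : g ∉ D k) (x : G) :
    L (D k) x < L (D k) (g * x) := by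
  refine lt_of_le_of_ne (L_mono _ (le_mul_of_one_le_left' hg.le)) fun e => h ?_
  have : g * x ∈ L (D k) x := by rw [e]; exact ⟨1, D_one hk, by simp⟩
  obtain ⟨d, hd, e⟩ := this
  exact D_conv hg.le (by simpa using e) hd

def key (k x : G) : Set G ×ₗ Set G := toLex (D k, L (D k) x)

theorem key_le {k x k' x' : G} : key k x ≤ key k' x' ↔
    D k < D k' ∨ D k = D k' ∧ L (D k) x ≤ L (D k') x' := Prod.Lex.toLex_le_toLex

/-- The action on the ambient ordered set. -/
def amb (g : G) : (Set G ×ₗ Set G) ≃o (Set G ×ₗ Set G) :=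
  Prod.Lex.prodLexCongr (MulAut.conj g).toEquiv.toOrderIsoSet (Equiv.mulLeft g).toOrderIsoSet

theorem amb_key (g k x : G) : amb g (key k x) = key (g * k * g⁻¹) (g * x) := by
  show toLex ((fun z => g * z * g⁻¹) '' D k, (fun z => g * z) '' L (D k) x) = _
  rw [D_cj, L_cj]; rfl

variable (G) in
/-- The chain of cosets of lower ends of jumps. -/
def Y : Type := {S : Set G ×ₗ Set G // ∃ k x, 1 < k ∧ S = key k x}

noncomputable instance : LinearOrder (Y G) :=
  { (inferInstance : PartialOrder {S : Set G ×ₗ Set G // ∃ k x, 1 < k ∧ S = key k x}) with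
    le_total := by
      rintro ⟨_, k, x, hk, rfl⟩ ⟨_, k', x', hk', rfl⟩
      show key k x ≤ key k' x' ∨ key k' x' ≤ key k x
      rw [key_le, key_le]
      by_cases e : D k = D k'
      · rcases le_total x x' with h | h
        · exact Or.inl (Or.inr ⟨e, e ▸ L_mono _ h⟩)
        · exact Or.inr (Or.inr ⟨e.symm, e ▸ L_mono _ h⟩)
      · rcases le_total k k' with h | h
        · exact Or.inl (Or.inl (lt_of_le_of_ne (D_mono h) e))
        · exact Or.inr (Or.inl (lt_of_le_of_ne (D_mono h) (Ne.symm e)))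
    toDecidableLE := Classical.decRel _ }

def ac (g : G) (S : Y G) : Y G := ⟨amb g S.1, by
  obtain ⟨k, x, hk, e⟩ := S.2
  exact ⟨_, _, one_lt_cj hk g, by rw [e, amb_key]⟩⟩

theorem ac_mul (g h : G) (S : Y G) : ac (g * h) S = ac g (ac h S) := by
  obtain ⟨_, k, x, hk, rfl⟩ := S
  refine Subtype.ext ?_
  show amb (g * h) (key k x) = amb g (amb h (key k x))
  simp only [amb_key]
  congr 1 <;> group

theorem ac_one (S : Y G) : ac 1 S = S := by
  obtain ⟨_, k, x, hk, rfl⟩ := S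
  refine Subtype.ext ?_
  show amb 1 (key k x) = key k x
  simp [amb_key]

/-- The action of `G` on `Y G`. -/
def al : G →* (Y G ≃o Y G) := MonoidHom.mk'
  (fun g => ⟨⟨ac g, ac g⁻¹, fun S => by rw [← ac_mul, inv_mul_cancel, ac_one],
    fun S => by rw [← ac_mul, mul_inv_cancel, ac_one]⟩, fun {_ _} => (amb g).le_iff_le⟩)
  (fun g h => RelIso.ext fun S => ac_mul g h S)

def pt {k : G} (hk : 1 < k) (x : G) : Y G := ⟨key k x, k, x, hk, rfl⟩

theorem al_fix {k m : G} (hk : 1 < k) (x : G) (hm : m ∈ D k) (y : Y G) (h : pt hk x ≤ y) :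
    al m y = y := by
  obtain ⟨_, k', x', hk', rfl⟩ := y
  have h' : key k x ≤ key k' x' := h
  have : D k ⊆ D k' := by
    rcases key_le.1 h' with e | e
    · exact e.le
    · exact e.1.le
  refine Subtype.ext ?_
  show amb m (key k' x') = key k' x'
  rw [amb_key, key, D_fix (this hm), L_fix (this hm), key]

theorem al_lt {k g : G} (hk : 1 < k) (hg : 1 < g) (x : G) (h : g ∉ D k) (e : D g ⊆ D k) :
    pt hk x < al g (pt hk x) := by
  have e1 : D k = D g := (D_sub hg h).antisymm e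
  have e2 : D (g * k * g⁻¹) = D k := by
    rw [← D_cj, e1, D_cj]; simp
  show key k x < amb g (key k x)
  rw [amb_key, key, key, e2, Prod.Lex.toLex_lt_toLex]
  exact Or.inr ⟨rfl, L_lt hk hg h x⟩

theorem not_D (g : G) : g ∉ D g := fun h => by simpa using h 1

theorem al_up {g : G} (hg : 1 < g) : Up (al g) := by
  refine ⟨pt hg 1, al_lt hg hg 1 (not_D g) le_rfl, ?_⟩
  rintro ⟨_, k, x, hk, rfl⟩ h
  by_cases e : g ∈ D k
  · exact Or.inr fun y hy => al_fix hk x e y hy
  · refine Or.inl (al_lt hk hg x e ?_)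
    rcases key_le.1 (show key g 1 ≤ key k x from h) with e | e
    · exact e.le
    · exact e.1.le

theorem chainY (G : Type) [Group G] [LinearOrder G] [MulLeftMono G] [MulRightMono G] :
    ∃ (Y : Type) (_ : LinearOrder Y) (α : G →* (Y ≃o Y)), (∀ g, 1 < g → Up (α g)) ∧
      ∀ g a b : G, 1 < g → InS Set.univ g a → InS Set.univ g b → ∃ f h y0, InS Set.univ b f ∧
        InS Set.univ a h ∧ y0 < α f y0 ∧ ∀ y, y0 ≤ y → α (f * h⁻¹) y = y := by
  refine ⟨Y G, inferInstance, al, fun g => al_up, fun g a b hg ha hb => ?_⟩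
  obtain ⟨f, h, h1, h2, h3, h4⟩ := holder hg ha hb
  exact ⟨f, h, pt h3 1, h1, h2, al_lt h3 h3 1 (not_D f) le_rfl, al_fix h3 1 h4⟩

end Pool.Agent.H.MP_ab86ea_al
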