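import Pool.Agent.H.MP_ab86ea_al.B

set_option autoImplicit false
set_option linter.unusedSectionVars false

namespace Pool.Agent.H.MP_ab86ea_al

open scoped commutatorElement

variable {Y : Type} [LinearOrder Y]

def Signed (H : Subgroup (Y ≃o Y)) : Prop := ∀ φ ∈ H, φ = 1 ∨ Up φ ∨ Up φ⁻¹

/-- Wreath product elements. -/
def wr (k : ℤ) (w : ℤ → Y ≃o Y) : (ℤ ×ₗ Y) ≃o (ℤ ×ₗ Y) where
  toFun p := toLex ((ofLex p).1 + k, w (ofLex p).1 (ofLex p).2)
  invFun p := toLex ((ofLex p).1 - k, (w ((ofLex p).1 - k)).symm (ofLex p).2)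
  left_inv p := by simp
  right_inv p := by simp
  map_rel_iff' {p q} := by
    obtain ⟨n, y⟩ := p
    obtain ⟨m, z⟩ := q
    show toLex (n + k, w n y) ≤ toLex (m + k, w m z) ↔ toLex (n, y) ≤ toLex (m, z)
    simp only [Prod.Lex.toLex_le_toLex, add_lt_add_iff_right, add_left_inj]
    refine or_congr Iff.rfl (and_congr_right fun e => ?_)
    subst e
    exact (w n).le_iff_le

@[simp] theorem wr_apply (k : ℤ) (w : ℤ → Y ≃o Y) (n : ℤ) (y : Y) :
    wr k w (toLex (n, y)) = toLex (n + k, w n y) := rfl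

theorem wr_ext {φ ψ : (ℤ ×ₗ Y) ≃o (ℤ ×ₗ Y)} (h : ∀ n y, φ (toLex (n, y)) = ψ (toLex (n, y))) :
    φ = ψ := RelIso.ext fun p => h (ofLex p).1 (ofLex p).2

theorem wr_mul (k l : ℤ) (w v : ℤ → Y ≃o Y) :
    wr k w * wr l v = wr (l + k) fun n => w (n + l) * v n :=
  wr_ext fun n y => by simp [add_assoc]

theorem wr_one : wr 0 (fun _ => (1 : Y ≃o Y)) = 1 := wr_ext fun n y => by simp

theorem wr_inv (k : ℤ) (w : ℤ → Y ≃o Y) : (wr k w)⁻¹ = wr (-k) fun n => (w (n + -k))⁻¹ := by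
  rw [inv_eq_iff_mul_eq_one, wr_mul]
  simpa using wr_one

def Wr (H : Subgroup (Y ≃o Y)) : Subgroup ((ℤ ×ₗ Y) ≃o (ℤ ×ₗ Y)) where
  carrier := {φ | ∃ (k : ℤ) (w : ℤ → Y ≃o Y) (N : ℤ), (∀ n, w n ∈ H) ∧ (∀ n, N ≤ n → w n = 1) ∧
    φ = wr k w}
  one_mem' := ⟨0, fun _ => 1, 0, fun _ => one_mem _, fun _ _ => rfl, wr_one.symm⟩
  mul_mem' := by
    rintro _ _ ⟨k, w, N, a1, a2, rfl⟩ ⟨l, v, M, b1, b2, rfl⟩
    refine ⟨_, _, max (N - l) M, fun n => mul_mem (a1 _) (b1 _), fun n hn => ?_, wr_mul ..⟩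
    rw [a2 _ (by omega), b2 _ (by omega), mul_one]
  inv_mem' := by
    rintro _ ⟨k, w, N, a1, a2, rfl⟩
    refine ⟨_, _, N + k, fun n => inv_mem (a1 _), fun n hn => ?_, wr_inv ..⟩
    rw [a2 _ (by omega), inv_one]

theorem up_shift [Nonempty Y] {k : ℤ} (hk : 0 < k) (w : ℤ → Y ≃o Y) : Up (wr k w) := by
  have : ∀ p, p < wr k w p := by
    rintro ⟨n, y⟩
    show toLex (n, y) < toLex (n + k, w n y)
    rw [Prod.Lex.toLex_lt_toLex]
    exact Or.inl (by simpa using hk)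
  exact ⟨toLex (0, Classical.arbitrary Y), this _, fun y _ => Or.inl (this y)⟩

theorem up_level {w : ℤ → Y ≃o Y} {n : ℤ} (h : Up (w n)) (h' : ∀ m, n < m → w m = 1) :
    Up (wr 0 w) := by
  obtain ⟨y0, h1, h2⟩ := h
  refine ⟨toLex (n, y0), ?_, ?_⟩
  · rw [wr_apply, Prod.Lex.toLex_lt_toLex]
    exact Or.inr ⟨by simp, h1⟩
  · rintro ⟨m, y⟩ hy
    rcases Prod.Lex.toLex_le_toLex.1 (show toLex (n, y0) ≤ toLex (m, y) from hy) with e | ⟨e, e'⟩
    · right
      rintro ⟨m', y'⟩ hy'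
      have : m ≤ m' := Prod.Lex.monotone_fst _ _ hy'
      show toLex (m' + 0, w m' y') = toLex (m', y')
      rw [h' m' (lt_of_lt_of_le e this)]
      simp
    · obtain rfl : n = m := e
      rcases h2 y e' with k | k
      · left
        show toLex (n, y) < toLex (n + 0, w n y)
        rw [Prod.Lex.toLex_lt_toLex]
        exact Or.inr ⟨by simp, k⟩
      · right
        rintro ⟨m', y'⟩ hy'
        show toLex (m' + 0, w m' y') = toLex (m', y')
        rcases Prod.Lex.toLex_le_toLex.1 (show toLex (n, y) ≤ toLex (m', y') from hy') with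
          f | ⟨f, f'⟩
        · rw [h' m' f]; simp
        · obtain rfl : n = m' := f
          rw [k y' f']; simp

theorem Signed.wr [Nonempty Y] {H : Subgroup (Y ≃o Y)} (h : Signed H) : Signed (Wr H) := by
  rintro _ ⟨k, w, N, a1, a2, rfl⟩
  rcases lt_trichotomy k 0 with e | rfl | e
  · rw [wr_inv]
    exact Or.inr (Or.inr (up_shift (by omega) _))
  · by_cases e : ∃ n, w n ≠ 1
    · obtain ⟨n, h1, h2⟩ := Int.exists_greatest_of_bdd (P := fun n => w n ≠ 1)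
        ⟨N, fun n hn => by by_contra k; exact hn (a2 n (by omega))⟩ e
      have h3 : ∀ m, n < m → w m = 1 := fun m hm => by
        by_contra k
        exact absurd (h2 m k) (by omega)
      rcases h _ (a1 n) with k | k | k
      · exact absurd k h1
      · exact Or.inr (Or.inl (up_level k h3))
      · rw [wr_inv]
        exact Or.inr (Or.inr (up_level (n := n) (by simpa using k) fun m hm => by simp [h3 m hm]))
    · push Not at e
      left
      rw [show w = fun _ => 1 from funext e, wr_one]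
  · exact Or.inr (Or.inl (up_shift e _))

/-- Acting on level `0` only. -/
def dl : (Y ≃o Y) →* ((ℤ ×ₗ Y) ≃o (ℤ ×ₗ Y)) := MonoidHom.mk'
  (fun φ => wr 0 fun n => if n = 0 then φ else 1) fun φ ψ => by
    rw [wr_mul]
    congr 1
    funext n
    by_cases h : n = 0 <;> simp [h]

theorem dl_zero (φ : Y ≃o Y) (y : Y) : dl φ (toLex (0, y)) = toLex (0, φ y) := by simp [dl]

theorem dl_ne (φ : Y ≃o Y) {n : ℤ} (h : n ≠ 0) (y : Y) : dl φ (toLex (n, y)) = toLex (n, y) := by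
  simp [dl, h]

theorem dl_mem {H : Subgroup (Y ≃o Y)} {φ : Y ≃o Y} (h : φ ∈ H) : dl φ ∈ Wr H :=
  ⟨0, fun n => if n = 0 then φ else 1, 1, fun n => by beta_reduce; split_ifs; exacts [h, one_mem _],
    fun n hn => if_neg (by omega), rfl⟩

theorem dl_comm {H : Subgroup (Y ≃o Y)} {φ : Y ≃o Y} (h : φ ∈ H) :
    ∃ u ∈ Wr H, ∃ v ∈ Wr H, dl φ = ⁅u, v⁆ := by
  refine ⟨wr 0 fun n => if n ≤ 0 then φ else 1, ⟨0, fun n => if n ≤ 0 then φ else 1, 1, fun n => by
      beta_reduce; split_ifs; exacts [h, one_mem _], fun n hn => if_neg (by omega), rfl⟩,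
    wr (-1) fun _ => 1, ⟨-1, fun _ => 1, 0, fun _ => one_mem _, fun _ _ => rfl, rfl⟩, ?_⟩
  rw [commutatorElement_def, wr_inv, wr_inv, wr_mul, wr_mul, wr_mul]
  show (wr 0 fun n => if n = 0 then φ else 1) = _
  congr 1
  funext n
  rcases lt_trichotomy n 0 with e | rfl | e
  · simp [e.ne, e.le, show n + 1 ≤ 0 by omega]
  · simp
  · simp [e.ne', show ¬ n ≤ 0 by omega, show ¬ n + 1 ≤ 0 by omega]

theorem dl_fix {φ : Y ≃o Y} {y0 : Y} (h : ∀ y, y0 ≤ y → φ y = y) (p : ℤ ×ₗ Y)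
    (hp : toLex (0, y0) ≤ p) : dl φ p = p := by
  obtain ⟨n, y⟩ := p
  rcases Prod.Lex.toLex_le_toLex.1 (show toLex (0, y0) ≤ toLex (n, y) from hp) with e | ⟨e, e'⟩
  · exact dl_ne φ (ne_of_gt e) y
  · obtain rfl : 0 = n := e
    exact (dl_zero φ y).trans (by rw [h y e']; rfl)

/-- The lexicographically ordered free abelian group on a chain. -/
abbrev Hn (Y : Type) [LinearOrder Y] : Type := Lex (Y →₀ ℤ)

noncomputable def linF (φ : Y ≃o Y) (t : Hn Y) : Hn Y :=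
  toLex (Finsupp.equivMapDomain φ.toEquiv (ofLex t))

theorem linF_apply (φ : Y ≃o Y) (t : Hn Y) (y : Y) : ofLex (linF φ t) y = ofLex t (φ.symm y) := rfl

theorem hn_ext {s t : Hn Y} (h : ∀ y, ofLex s y = ofLex t y) : s = t :=
  ofLex.injective (Finsupp.ext h)

theorem linF_sm (φ : Y ≃o Y) : StrictMono (linF φ) := by
  intro s t h
  obtain ⟨i, h1, h2⟩ := Finsupp.Lex.lt_iff.1 h
  refine Finsupp.Lex.lt_iff.2 ⟨φ i, fun j hj => h1 _ ?_, ?_⟩
  · exact φ.symm_apply_lt.2 hj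
  · rw [linF_apply, linF_apply, φ.symm_apply_apply]
    exact h2

/-- The induced linear order automorphism. -/
noncomputable def lin : (Y ≃o Y) →* (Hn Y ≃o Hn Y) := MonoidHom.mk'
  (fun φ => ⟨⟨linF φ, linF φ.symm, fun t => hn_ext fun y => by simp [linF_apply],
    fun t => hn_ext fun y => by simp [linF_apply]⟩, fun {_ _} => (linF_sm φ).le_iff_le⟩)
  (fun _ _ => RelIso.ext fun _ => hn_ext fun _ => rfl)

theorem lin_apply (φ : Y ≃o Y) (t : Hn Y) (y : Y) : ofLex (lin φ t) y = ofLex t (φ.symm y) := rfl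

theorem lin_add (φ : Y ≃o Y) (s t : Hn Y) : lin φ (s + t) = lin φ s + lin φ t :=
  hn_ext fun _ => rfl

noncomputable def ee (y : Y) : Hn Y := toLex (Finsupp.single y 1)

theorem lin_ee (φ : Y ≃o Y) (y : Y) : lin φ (ee y) = ee (φ y) :=
  congrArg toLex (Finsupp.equivMapDomain_single φ.toEquiv y 1)

/-- Vanishing below `j`. -/
def Z (j : Y) (t : Hn Y) : Prop := ∀ k, k < j → ofLex t k = 0

theorem Z.add {j : Y} {s t : Hn Y} (hs : Z j s) (ht : Z j t) : Z j (s + t) := fun k hk => by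
  show ofLex s k + ofLex t k = 0
  rw [hs k hk, ht k hk, add_zero]

theorem Z.mono {j j' : Y} {s : Hn Y} (hs : Z j s) (h : j' ≤ j) : Z j' s :=
  fun k hk => hs k (hk.trans_le h)

theorem Z_ee (j : Y) : Z j (ee j) := fun _ hk => Finsupp.single_eq_of_ne (ne_of_lt hk)

theorem Z.lt {i j : Y} {s t : Hn Y} (hs : Z j s) (ht : Z i t) (h : i < j) (p : 0 < ofLex t i) :
    s < t := Finsupp.Lex.lt_iff.2 ⟨i, fun k hk => (hs k (hk.trans h)).trans (ht k hk).symm, by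
      rw [hs i h]; exact p⟩

theorem Z.lt_ee {i j : Y} {s : Hn Y} (hs : Z j s) (h : i < j) : s < ee i :=
  hs.lt (Z_ee i) h (by simp [ee])

theorem lead {t : Hn Y} (h : 0 < t) : ∃ i, Z i t ∧ 0 < ofLex t i := by
  obtain ⟨i, h1, h2⟩ := Finsupp.Lex.lt_iff.1 h
  exact ⟨i, fun k hk => (h1 k hk).symm, h2⟩

theorem Z.conv {j : Y} {t x : Hn Y} (hx : Z j x) (h0 : 0 ≤ t) (h : t ≤ x) : Z j t := by
  rcases h0.eq_or_lt with rfl | h0
  · exact fun _ _ => rfl
  · obtain ⟨i, h1, h2⟩ := lead h0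
    refine h1.mono (not_lt.1 fun e => ?_)
    exact absurd (hx.lt h1 e h2) (not_lt.2 h)

theorem Z.fix {j : Y} {t : Hn Y} (ht : Z j t) {φ : Y ≃o Y} (h : ∀ k, j ≤ k → φ k = k) :
    lin φ t = t := hn_ext fun y => by
  rw [lin_apply]
  rcases lt_or_ge y j with e | e
  · rw [ht y e, ht _ (φ.symm_apply_lt.2 (by rwa [h j le_rfl]))]
  · rw [φ.symm_apply_eq.2 (h y e).symm]

theorem Z.lin {j : Y} {t : Hn Y} (ht : Z j t) (φ : Y ≃o Y) : Z (φ j) (lin φ t) :=
  fun _ hk => ht _ (φ.symm_apply_lt.2 hk)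

theorem ee_pos (y : Y) : 0 < ee y :=
  Finsupp.Lex.lt_iff.2 ⟨y, fun k hk => (Z_ee y k hk).symm, by simp [ee]⟩

theorem Up.neg {φ : Y ≃o Y} (h : Up φ) :
    ∃ x, 0 ≤ x ∧ lin φ x < x ∧ ∀ t, 0 ≤ t → t ≤ x → lin φ t ≤ t := by
  obtain ⟨y0, h1, h2⟩ := h
  refine ⟨ee y0, (ee_pos y0).le, ((Z_ee y0).lin φ).lt_ee h1, fun t h0 ht => ?_⟩
  rcases h0.eq_or_lt with rfl | h0'
  · exact le_of_eq (hn_ext fun _ => rfl)
  · obtain ⟨i, i1, i2⟩ := lead h0'
    have : y0 ≤ i := not_lt.1 fun e => by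
      rw [(Z_ee y0).conv h0 ht i e] at i2
      exact lt_irrefl _ i2
    rcases h2 i this with e | e
    · exact ((i1.lin φ).lt i1 e i2).le
    · exact (i1.fix e).le

end Pool.Agent.H.MP_ab86ea_al
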