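import Pool.Agent.H.MP_ab86ea_al.D

set_option autoImplicit false
set_option linter.unusedSectionVars false

namespace Pool.Agent.H.MP_ab86ea_al

open scoped commutatorElement
open Pool.Agent.H.MP_23b8d1_al

/-- Orderability in terms of a strict positive cone. -/
def Ord (G : Type) [Group G] : Prop :=
  ∃ P : Set G, NS Set.univ P ∧ 1 ∉ P ∧ ∀ g, g ≠ 1 → g ∈ P ∨ g⁻¹ ∈ P

theorem ins_mem {G H : Type} [Group G] [Group H] (j : G →* H) {P : Set H} (hP : NS Set.univ P)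
    {b f : G} (hb : j b ∈ P) (h : InS Set.univ b f) : j f ∈ P := by
  induction h with
  | cj x _ => rw [map_mul, map_mul, map_inv]; exact hP.cj _ trivial _ hb
  | mul a b _ _ h1 h2 => rw [map_mul]; exact hP.mul _ h1 _ h2

theorem ins_inv {G : Type} [Group G] {g a : G} (h : InS Set.univ g a) : InS Set.univ g⁻¹ a⁻¹ :=
  InS.inv (by rwa [inv_inv])

theorem Ord.rstar {G : Type} [Group G] (h : Ord G) (g : G) (hg : g ≠ 1) : ¬ InS Set.univ g 1 := by
  obtain ⟨P, hP, h1, ht⟩ := h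
  intro k
  rcases ht g hg with e | e
  · exact h1 (ins_mem (MonoidHom.id G) hP e k)
  · exact h1 (by simpa using ins_mem (MonoidHom.id G) hP e (ins_inv k))

theorem step1 (G : Type) [Group G] [LinearOrder G] [MulLeftMono G] [MulRightMono G] [Nontrivial G] :
    ∃ (G' : Type) (_ : Group G') (j : G →* G'), Function.Injective j ∧ Ord G' ∧
      ∀ P : Set G', NS Set.univ P → ∀ g a b : G, 1 < g → InS Set.univ g a → InS Set.univ g b →
        j a⁻¹ ∈ P → j b ∈ P → (1 : G') ∈ P := by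
  obtain ⟨Y, _, α, hup, hα⟩ := chainY G
  have sg : ∀ g : G, g ≠ 1 → Up (α g) ∨ Up (α g)⁻¹ := fun g hg => by
    rcases lt_or_gt_of_ne hg with k | k
    · exact Or.inr (by rw [← map_inv]; exact hup _ (Left.one_lt_inv_iff.2 k))
    · exact Or.inl (hup _ k)
  have s0 : Signed α.range := by
    rintro _ ⟨g, rfl⟩
    by_cases hg : g = 1
    · exact Or.inl (by rw [hg, map_one])
    · exact Or.inr (sg g hg)
  obtain ⟨ys⟩ : Nonempty Y := by
    obtain ⟨g, hg⟩ := exists_ne (1 : G)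
    rcases sg g hg with ⟨y, -⟩ | ⟨y, -⟩ <;> exact ⟨y⟩
  have : Nonempty Y := ⟨ys⟩
  have s2 := s0.wr.wr
  let Λ := (Wr (Wr α.range)).map lin
  have h : LinG Λ := ⟨by rintro _ ⟨φ, -, rfl⟩; exact lin_add φ, by
    rintro _ ⟨φ, hφ, rfl⟩
    rcases s2 φ hφ with rfl | k | k
    · exact Or.inl (map_one _)
    · exact Or.inr (Or.inl k.neg)
    · obtain ⟨x, x0, x1, x2⟩ := k.neg
      rw [map_inv] at x1 x2
      exact Or.inr (Or.inr ⟨x, x0, (lin φ).symm_apply_lt.1 x1,
        fun t t0 t1 => (lin φ).symm_apply_le.1 (x2 t t0 t1)⟩)⟩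
  let E : Hn (ℤ ×ₗ ℤ ×ₗ Y) := ee (toLex (-1, toLex (0, ys)))
  have hE : 0 ≤ E := (ee_pos _).le
  obtain ⟨ι, hι⟩ := exι h hE
  let κ : Wr α.range →* Fx Λ E := ((lin.comp dl).comp (Wr α.range).subtype).codRestrict _ fun w =>
    ⟨⟨_, dl_mem w.2, rfl⟩, (lin_ee _ _).trans (congrArg ee (dl_ne _ (by norm_num) _))⟩
  let β : G →* Wr α.range := (dl.comp α).codRestrict _ fun g => dl_mem ⟨g, rfl⟩
  have κβ : ∀ g, (κ (β g)).1 = lin (dl (dl (α g))) := fun _ => rfl
  let j : G →* G0 h := ((ι.comp κ).comp β).codRestrict _ fun g => G0_of h (hι _).1 (hι _).2.1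
  have jv : ∀ g, (j g).1 = ι (κ (β g)) := fun _ => rfl
  have lt0 : ∀ (p q : ℤ ×ₗ Y) {m n : ℤ}, m < n → toLex (m, p) < toLex (n, q) := fun p q _ _ k =>
    Prod.Lex.toLex_lt_toLex.2 (Or.inl k)
  have lt1 : ∀ {y y' : Y}, y < y' →
      toLex ((0 : ℤ), toLex ((0 : ℤ), y)) < toLex ((0 : ℤ), toLex ((0 : ℤ), y')) := fun k =>
    Prod.Lex.toLex_lt_toLex.2 (Or.inr ⟨rfl, Prod.Lex.toLex_lt_toLex.2 (Or.inr ⟨rfl, k⟩)⟩)
  have act : ∀ g y, lin (dl (dl (α g))) (ee (toLex (0, toLex (0, y)))) =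
      ee (toLex (0, toLex (0, α g y))) := fun g y => by rw [lin_ee, dl_zero, dl_zero]
  refine ⟨G0 h, inferInstance, j, ?_, ?_, ?_⟩
  · rw [injective_iff_map_eq_one]
    intro g hg
    by_contra k
    have e : ∀ y, α g y = y := fun y => by
      have := (hι (κ (β g))).2.2.2 (ee (toLex (0, toLex (0, y)))) (ee_pos _).le
        ((Z_ee _).lt_ee (lt0 _ _ (by norm_num))).le
      rw [← jv, hg, κβ, act] at this
      by_contra k
      rcases lt_or_gt_of_ne k with k | k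
      · exact ((Z_ee _).lt_ee (lt1 k)).ne this
      · exact ((Z_ee _).lt_ee (lt1 k)).ne' this
    rcases sg g k with ⟨y, hy, -⟩ | ⟨y, hy, -⟩
    · exact hy.ne' (e y)
    · exact hy.ne' (fix_inv (e y))
  · refine ⟨{w | Pos w.1}, ⟨fun a ha b hb => Pos.mul ha hb, fun x _ a ha => Pos.cj ha x.1⟩, ?_,
      fun g hg => G0_sgn h g.2 fun e => hg (Subtype.ext e)⟩
    rintro ⟨x, hx, -⟩
    exact lt_irrefl _ hx
  · intro P hP g a b hg ha hb ha' hb'
    obtain ⟨f, k, y0, h1, h2, h3, h4⟩ := hα g a b hg ha hb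
    obtain ⟨u, hu, v, hv, huv⟩ := dl_comm (H := α.range) ⟨(f * k⁻¹)⁻¹ ^ 3, rfl⟩
    have τE : lin (wr 2 fun _ => 1) E = ee (toLex (1, toLex (0, ys))) := lin_ee _ _
    have z1 : Z (toLex (0, toLex (0, y0))) (ee (toLex ((0 : ℤ), toLex ((0 : ℤ), y0))) +
        ee (toLex (1, toLex (0, ys)))) := (Z_ee _).add ((Z_ee _).mono (lt0 _ _ one_pos).le)
    have : (1 : Hn (ℤ ×ₗ ℤ ×ₗ Y) ≃o Hn (ℤ ×ₗ ℤ ×ₗ Y)) ∈ Subtype.val '' P := by
      refine geo h (τ := lin (wr 2 fun _ => 1)) (s := ee (toLex (0, toLex (0, y0))))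
        ⟨_, ⟨2, fun _ => 1, 0, fun _ => one_mem _, fun _ _ => rfl, rfl⟩, rfl⟩ (ee_pos _).le hE ?_ ι hι
        (κ (β f)) (κ (β k⁻¹)) (κ ⟨u, hu⟩) (κ ⟨v, hv⟩) ?_ ?_ ?_ ⟨?_, ?_⟩
        ⟨_, ins_mem j hP hb' h1, rfl⟩ ⟨_, ins_mem j hP ha' (ins_inv h2), rfl⟩
      · rw [τE]
        exact ((z1.add z1).lt_ee (lt0 _ _ (by norm_num))).le
      · rw [← map_commutatorElement, ← map_mul, ← map_mul, ← map_inv, ← map_inv, ← map_pow, ← map_pow]
        exact congrArg κ (Subtype.ext huv)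
      · intro t t0 t1
        rw [τE] at t1
        rw [← map_mul, ← map_mul, κβ]
        exact (z1.conv t0 t1).fix (dl_fix (dl_fix h4))
      · rw [τE, κβ, lin_add, act, lin_ee, dl_ne _ one_ne_zero]
        exact (((Z_ee _).add ((Z_ee _).mono (lt0 _ _ one_pos).le)).lt_ee (lt1 h3)).le
      · rintro _ ⟨u, hu, rfl⟩ _ ⟨v, hv, rfl⟩
        exact ⟨_, hP.mul _ hu _ hv, rfl⟩
      · rintro x hx _ ⟨u, hu, rfl⟩
        exact ⟨_, hP.cj ⟨x, hx⟩ trivial _ hu, rfl⟩
    obtain ⟨u, hu, e⟩ := this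
    rwa [show u = 1 from Subtype.ext e] at hu

theorem step (G : Type) [Group G] (h : Ord G) :
    ∃ (G' : Type) (_ : Group G') (j : G →* G'), Function.Injective j ∧ Ord G' ∧
      ∀ P : Set G', NS Set.univ P → ∀ g a b : G, g ≠ 1 → InS Set.univ g a → InS Set.univ g b →
        j a⁻¹ ∈ P → j b ∈ P → (1 : G') ∈ P := by
  rcases subsingleton_or_nontrivial G with k | k
  · exact ⟨G, inferInstance, MonoidHom.id G, fun _ _ e => e, h,
      fun _ _ g _ _ hg => absurd (Subsingleton.elim _ _) hg⟩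
  obtain ⟨Q, hQ, h1, ht⟩ := h
  let _ : LinearOrder G :=
    { le := fun x y => x = y ∨ x⁻¹ * y ∈ Q
      le_refl := fun _ => Or.inl rfl
      le_trans := by
        rintro x y z (rfl | k) (rfl | k')
        · exact Or.inl rfl
        · exact Or.inr k'
        · exact Or.inr k
        · exact Or.inr (by simpa [mul_assoc] using hQ.mul _ k _ k')
      le_antisymm := by
        rintro x y (k | k) (k' | k')
        · exact k
        · exact k
        · exact k'.symm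
        · exact absurd (by simpa using hQ.mul _ k _ k') h1
      le_total := fun x y => by
        by_cases k : x = y
        · exact Or.inl (Or.inl k)
        · rcases ht (x⁻¹ * y) (by simpa [inv_mul_eq_one] using k) with k' | k'
          · exact Or.inl (Or.inr k')
          · exact Or.inr (Or.inr (by simpa using k'))
      toDecidableLE := Classical.decRel _ }
  have : MulLeftMono G := ⟨by
    rintro g a b (rfl | k)
    · exact Or.inl rfl
    · exact Or.inr (by simpa [mul_assoc] using k)⟩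
  have : MulRightMono G := ⟨by
    rintro g a b (rfl | k)
    · exact Or.inl rfl
    · exact Or.inr (by simpa [mul_assoc, Function.swap] using hQ.cj g⁻¹ trivial _ k)⟩
  obtain ⟨G', _, j, j1, j2, j3⟩ := step1 G
  refine ⟨G', inferInstance, j, j1, j2, fun P hP g a b hg ha hb ha' hb' => ?_⟩
  rcases lt_or_gt_of_ne hg with k | k
  · exact j3 P hP g⁻¹ b⁻¹ a⁻¹ (Left.one_lt_inv_iff.2 k) (ins_inv hb) (ins_inv ha)
      (by rwa [inv_inv]) ha'
  · exact j3 P hP g a b k ha hb ha' hb'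

structure St where
  K : Type
  [gr : Group K]
  ord : Ord K

instance (st : St) : Group st.K := st.gr

def tw (s0 : St) (nx : St → St) : ℕ → St
  | 0 => s0
  | n + 1 => nx (tw s0 nx n)

def chain (K : ℕ → Type) [∀ n, Group (K n)] (φ : ∀ n, K n →* K (n + 1)) (i j : ℕ)
    (h : i ≤ j) : K i →* K j :=
  Nat.leRecOn (C := fun k => K i →* K k) h (fun g => (φ _).comp g) (MonoidHom.id _)

theorem limit (K : ℕ → Type) [∀ n, Group (K n)] (φ : ∀ n, K n →* K (n + 1))
    (hφ : ∀ n, Function.Injective (φ n)) : ∃ (H : Type) (_ : Group H) (o : ∀ n, K n →* H),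
      (∀ n, Function.Injective (o n)) ∧ (∀ n x, o (n + 1) (φ n x) = o n x) ∧
        ∀ y, ∃ n x, o n x = y := by
  let f := chain K φ
  have f0 : ∀ i, f i i le_rfl = MonoidHom.id _ := fun i => Nat.leRecOn_self _
  have f1 : ∀ i j (h : i ≤ j), f i (j + 1) (h.trans j.le_succ) = (φ _).comp (f i j h) :=
    fun i j h => Nat.leRecOn_succ h _
  have : DirectedSystem K (f · · ·) := ⟨fun i x => by rw [f0]; rfl,
    fun k j i hij hjk x => by
      induction hjk with
      | refl => rw [f0]; rfl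
      | step h ih => rw [f1 _ _ h, f1 _ _ (hij.trans h)]; exact congrArg _ ih⟩
  have inj : ∀ i j (h : i ≤ j), Function.Injective (f i j h) := fun i j h => by
    induction h with
    | refl => rw [f0]; exact fun _ _ e => e
    | step h ih => rw [f1 _ _ h]; exact (hφ _).comp ih
  refine ⟨DirectLimit K f, inferInstance, fun n => MonoidHom.mk' (fun x => ⟦⟨n, x⟩⟧)
    (fun _ _ => (DirectLimit.mul_def ..).symm), fun n => DirectLimit.mk_injective _ inj n,
    fun n x => ?_, fun y => ?_⟩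
  · have : φ n x = f n (n + 1) n.le_succ x := by rw [f1 _ _ le_rfl, f0]; rfl
    rw [this]
    exact DirectLimit.mk_apply ..
  · obtain ⟨n, x, rfl⟩ := DirectLimit.exists_eq_mk _ y
    exact ⟨n, x, rfl⟩

theorem embed (G : Type) [Group G] (h : Ord G) : ∃ (H : Type) (_ : Group H) (f : G →* H),
    Function.Injective f ∧ ∀ P0 : Set H, NS Set.univ P0 → 1 ∉ P0 →
      ∃ P : Set H, NS Set.univ P ∧ 1 ∉ P ∧ P0 ⊆ P ∧ ∀ g, g ≠ 1 → g ∈ P ∨ g⁻¹ ∈ P := by
  have nx : ∀ st : St, ∃ (st' : St) (j : st.K →* st'.K), Function.Injective j ∧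
      ∀ P : Set st'.K, NS Set.univ P → ∀ g a b : st.K, g ≠ 1 → InS Set.univ g a →
        InS Set.univ g b → j a⁻¹ ∈ P → j b ∈ P → (1 : st'.K) ∈ P := fun st => by
    obtain ⟨G', _, j, j1, j2, j3⟩ := step st.K st.ord
    exact ⟨⟨G', j2⟩, j, j1, j3⟩
  obtain ⟨T, φ, e0, h0, h1, h2⟩ : ∃ (T : ℕ → St) (φ : ∀ n, (T n).K →* (T (n + 1)).K)
      (e0 : G →* (T 0).K), Function.Injective e0 ∧ (∀ n, Function.Injective (φ n)) ∧
      ∀ n, ∀ P : Set (T (n + 1)).K, NS Set.univ P → ∀ g a b : (T n).K, g ≠ 1 → InS Set.univ g a →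
        InS Set.univ g b → φ n a⁻¹ ∈ P → φ n b ∈ P → (1 : (T (n + 1)).K) ∈ P := by
    choose nx φ h1 h2 using nx
    exact ⟨tw ⟨G, h⟩ nx, fun n => φ _, MonoidHom.id G, fun _ _ e => e, fun n => h1 _, fun n => h2 _⟩
  obtain ⟨H, _, o, o1, o2, o3⟩ := limit (fun n => (T n).K) φ h1
  have up : ∀ {p : ∀ n, (T n).K → (T n).K → Prop},
      (∀ n x y, p n x y → p (n + 1) (φ _ x) (φ _ y)) → ∀ n m, n ≤ m → ∀ x y, p n x y →
        ∃ x' y', o m x' = o n x ∧ o m y' = o n y ∧ p m x' y' := fun hp n m k x y e => by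
    induction k with
    | refl => exact ⟨x, y, rfl, rfl, e⟩
    | step _ ih =>
      obtain ⟨x', y', e1, e2, e3⟩ := ih
      exact ⟨_, _, (o2 _ _).trans e1, (o2 _ _).trans e2, hp _ _ _ e3⟩
  have insm : ∀ n (x y : (T n).K), InS Set.univ x y →
      InS Set.univ (φ n x) (φ _ y) := fun n x y e => by
    induction e with
    | cj z _ => rw [map_mul, map_mul, map_inv]; exact InS.cj _ trivial
    | mul a b _ _ h1 h2 => rw [map_mul]; exact InS.mul _ _ h1 h2
  have two : ∀ {g a b : H}, (∃ n x y, o n x = g ∧ o n y = a ∧ InS Set.univ x y) →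
      (∃ n x y, o n x = g ∧ o n y = b ∧ InS Set.univ x y) →
      ∃ n x y z, o n x = g ∧ o n y = a ∧ o n z = b ∧ InS Set.univ x y ∧ InS Set.univ x z := by
    rintro g a b ⟨n, x, y, e1, e2, e3⟩ ⟨m, x', z, f1, f2, f3⟩
    obtain ⟨x1, y1, a1, a2, a3⟩ := up insm n (n + m) (by omega) x y e3
    obtain ⟨x2, y2, b1, b2, b3⟩ := up insm m (n + m) (by omega) x' z f3
    obtain rfl : x1 = x2 := o1 _ (by rw [a1, b1, e1, f1])
    exact ⟨_, x1, y1, y2, a1.trans e1, a2.trans e2, b2.trans f2, a3, b3⟩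
  have lift : ∀ {g a : H}, InS Set.univ g a → ∃ n x y, o n x = g ∧ o n y = a ∧ InS Set.univ x y := by
    intro g a e
    induction e with
    | cj z _ =>
      obtain ⟨n, x, rfl⟩ := o3 g
      obtain ⟨m, y, rfl⟩ := o3 z
      obtain ⟨x1, -, a1, -⟩ := up (p := fun _ _ _ => True) (fun _ _ _ _ => trivial) n (n + m)
        (by omega) x x trivial
      obtain ⟨y1, -, b1, -⟩ := up (p := fun _ _ _ => True) (fun _ _ _ _ => trivial) m (n + m)
        (by omega) y y trivial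
      exact ⟨_, x1, _, a1, by rw [map_mul, map_mul, map_inv, a1, b1], InS.cj y1 trivial⟩
    | mul a b _ _ h1 h2 =>
      obtain ⟨n, x, y, z, e1, e2, e3, e4, e5⟩ := two h1 h2
      exact ⟨n, x, y * z, e1, by rw [map_mul, e2, e3], InS.mul _ _ e4 e5⟩
  refine ⟨H, inferInstance, (o 0).comp e0, (o1 0).comp h0,
    ohnishi (fun g hg e => ?_) fun P hP g a b hg ha hb ha' hb' => ?_⟩
  · obtain ⟨n, x, y, rfl, e2, e3⟩ := lift e
    obtain rfl : y = 1 := o1 _ (by rw [e2, map_one])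
    exact (T n).ord.rstar x (fun k => hg (by rw [k, map_one])) e3
  · obtain ⟨n, x, y, z, rfl, rfl, rfl, e4, e5⟩ := two (lift ha) (lift hb)
    have := h2 _ (o (n + 1) ⁻¹' P) ⟨fun a ha b hb => by
        show o (n + 1) (a * b) ∈ P
        rw [map_mul]; exact hP.mul _ ha _ hb, fun x _ a ha => by
        show o (n + 1) (x * a * x⁻¹) ∈ P
        rw [map_mul, map_mul, map_inv]; exact hP.cj _ trivial _ ha⟩ x y z
      (fun k => hg (by rw [k, map_one])) e4 e5
      (by show o (n + 1) (φ _ y⁻¹) ∈ P; rwa [o2, map_inv]) (by show o (n + 1) (φ _ z) ∈ P; rwa [o2])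
    have e : o (n + 1) 1 ∈ P := this
    rwa [map_one] at e

end Pool.Agent.H.MP_ab86ea_al
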